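import Pool.Agent.H.MP_69d501_gt.D

namespace Pool.Agent.Results.MP_69d501_gt.Yes

open Pool.Agent.H.MP_69d501_gt

theorem result (D : GK) : sInf {k : ℕ∞ | ∃ n : ℕ, k = n ∧ OneStep Change D n} =
    sInf {k : ℕ∞ | ∃ n : ℕ, k = n ∧ Seq Change D n} := by
  rw [change_eq]
  exact main true D

end Pool.Agent.Results.MP_69d501_gt.Yes
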